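import Mathlib

namespace Pool.Agent.Work.MP_9521de_co

/-- `S` is a closed axis-parallel square of positive side length in the plane `ℂ`. -/
def IsSquare (S : Set ℂ) : Prop :=
  ∃ a b s : ℝ, 0 < s ∧ S = {z : ℂ | z.re ∈ Set.Icc a (a + s) ∧ z.im ∈ Set.Icc b (b + s)}

/-- The points `w` such that the segment from `v` to `w` lies in the free space `F`. -/
def visibleRegion (F : Set ℂ) (v : ℂ) : Set ℂ :=
  {w | segment ℝ v w ⊆ F}

/-- The points `u` of `W` such that the half-open segment `[v, u)` contains no point of `W`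
other than possibly `v`. -/
def visibleBoundary (W : Set ℂ) (v : ℂ) : Set ℂ :=
  {u | u ∈ W ∧ ∀ p ∈ segment ℝ v u, p ≠ u → p ∈ W → p = v}

end Pool.Agent.Work.MP_9521de_co
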