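import Mathlib
import Pool.Agent.Work.MP_9521de_co.Defs

-- merged part: Pool.Agent.Work.MP_9521de_co.Sector
section
/-!
The checkerboard of squares: what a point near the centre of a missing square can see.
-/

namespace Pool.Agent.Work.MP_9521de_co

open MeasureTheory Set
open scoped ENNReal

/-- `z` lies in one of the obstacles. -/
def Blk (n : ℕ) (z : ℂ) : Prop :=
  ∃ i j : ℤ, |i| ≤ n ∧ |j| ≤ n ∧ Even (i + j) ∧ |z.re - i| ≤ 3 / 10 ∧ |z.im - j| ≤ 3 / 10

/-- `z` lies on a side of an obstacle or of the big square. -/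
def Wall (n : ℕ) (L : ℝ) (z : ℂ) : Prop :=
  (∃ i j : ℤ, |i| ≤ n ∧ |j| ≤ n ∧ Even (i + j) ∧ |z.re - i| ≤ 3 / 10 ∧ |z.im - j| ≤ 3 / 10 ∧
    (|z.re - i| = 3 / 10 ∨ |z.im - j| = 3 / 10)) ∨
  (|z.re| ≤ L ∧ |z.im| ≤ L ∧ (|z.re| = L ∨ |z.im| = L))

/-- `v` is near the centre of a missing square in the central part of the field. -/
def Adm (N : ℕ) (v : ℂ) : Prop :=
  ∃ i j : ℤ, |i| ≤ N ∧ |j| ≤ N ∧ Odd (i + j) ∧ |v.re - i| ≤ 1 / 100 ∧ |v.im - j| ≤ 1 / 100

/-- Wall points joined to `v` by a half-open segment that misses the obstacles. -/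
def Vis (n : ℕ) (L : ℝ) (v : ℂ) : Set ℂ :=
  {u | Wall n L u ∧ ∀ τ : ℝ, 0 ≤ τ → τ < 1 → ¬ Blk n (v + τ • (u - v))}

theorem hseg_le (y a r : ℝ) :
    μH[1] {z : ℂ | z.im = y ∧ z.re ∈ Icc a (a + r)} ≤ ENNReal.ofReal r := by
  have hiso : Isometry (fun t : ℝ => (⟨t, y⟩ : ℂ)) := by
    apply Isometry.of_dist_eq
    intro s t
    exact Complex.dist_of_im_eq (z := ⟨s, y⟩) (w := ⟨t, y⟩) rfl
  have hsub : {z : ℂ | z.im = y ∧ z.re ∈ Icc a (a + r)} ⊆
      (fun t : ℝ => (⟨t, y⟩ : ℂ)) '' Icc a (a + r) := by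
    rintro z ⟨h1, h2⟩
    exact ⟨z.re, h2, Complex.ext rfl h1.symm⟩
  refine (measure_mono hsub).trans ?_
  rw [hiso.hausdorffMeasure_image (Or.inl zero_le_one), hausdorffMeasure_real, Real.volume_Icc]
  simp

theorem vseg_le (x a r : ℝ) :
    μH[1] {z : ℂ | z.re = x ∧ z.im ∈ Icc a (a + r)} ≤ ENNReal.ofReal r := by
  have hiso : Isometry (fun t : ℝ => (⟨x, t⟩ : ℂ)) := by
    apply Isometry.of_dist_eq
    intro s t
    exact Complex.dist_of_re_eq (z := ⟨x, s⟩) (w := ⟨x, t⟩) rfl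
  have hsub : {z : ℂ | z.re = x ∧ z.im ∈ Icc a (a + r)} ⊆
      (fun t : ℝ => (⟨x, t⟩ : ℂ)) '' Icc a (a + r) := by
    rintro z ⟨h1, h2⟩
    exact ⟨z.im, h2, Complex.ext h1.symm rfl⟩
  refine (measure_mono hsub).trans ?_
  rw [hiso.hausdorffMeasure_image (Or.inl zero_le_one), hausdorffMeasure_real, Real.volume_Icc]
  simp

theorem four_le {A B C D S : Set ℂ} {r : ℝ} (hr : 0 ≤ r) (hS : S ⊆ A ∪ B ∪ C ∪ D)
    (hA : μH[1] A ≤ ENNReal.ofReal r) (hB : μH[1] B ≤ ENNReal.ofReal r)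
    (hC : μH[1] C ≤ ENNReal.ofReal r) (hD : μH[1] D ≤ ENNReal.ofReal r) :
    μH[1] S ≤ ENNReal.ofReal (4 * r) := by
  refine (measure_mono hS).trans ?_
  calc μH[1] (A ∪ B ∪ C ∪ D) ≤ μH[1] (A ∪ B ∪ C) + μH[1] D := measure_union_le _ _
    _ ≤ μH[1] (A ∪ B) + μH[1] C + μH[1] D := by gcongr; exact measure_union_le _ _
    _ ≤ μH[1] A + μH[1] B + μH[1] C + μH[1] D := by gcongr; exact measure_union_le _ _
    _ ≤ ENNReal.ofReal r + ENNReal.ofReal r + ENNReal.ofReal r + ENNReal.ofReal r := by gcongr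
    _ = ENNReal.ofReal (4 * r) := by
      rw [← ENNReal.ofReal_add hr hr, ← ENNReal.ofReal_add (by linarith only [hr]) hr,
        ← ENNReal.ofReal_add (by linarith) hr]
      congr 1; ring

/-- The part of the four side lines of an obstacle inside a small box. -/
def Quad (p q a b r : ℝ) : Set ℂ :=
  {z | (|z.re - p| = 3 / 10 ∨ |z.im - q| = 3 / 10) ∧ z.re ∈ Icc a (a + r) ∧ z.im ∈ Icc b (b + r)}

theorem quad_le (p q a b r : ℝ) (hr : 0 ≤ r) : μH[1] (Quad p q a b r) ≤ ENNReal.ofReal (4 * r) := by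
  refine four_le hr ?_ (vseg_le (p + 3 / 10) b r) (vseg_le (p - 3 / 10) b r)
    (hseg_le (q + 3 / 10) a r) (hseg_le (q - 3 / 10) a r)
  rintro z ⟨h | h, h1, h2⟩
  · rcases (abs_eq (by norm_num)).1 h with h | h
    · exact Or.inl (Or.inl (Or.inl ⟨by linarith only [h], h2⟩))
    · exact Or.inl (Or.inl (Or.inr ⟨by linarith only [h], h2⟩))
  · rcases (abs_eq (by norm_num)).1 h with h | h
    · exact Or.inl (Or.inr ⟨by linarith only [h], h1⟩)
    · exact Or.inr ⟨by linarith only [h], h1⟩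

/-- The part of the four side lines of the big square inside a diagonal strip. -/
def Out (L t r : ℝ) : Set ℂ :=
  {z | (|z.re| = L ∨ |z.im| = L) ∧ z.re - z.im ∈ Icc t (t + r)}

theorem out_le (L t r : ℝ) (hL : 0 ≤ L) (hr : 0 ≤ r) :
    μH[1] (Out L t r) ≤ ENNReal.ofReal (4 * r) := by
  refine four_le hr ?_ (vseg_le L (L - t - r) r) (vseg_le (-L) (-L - t - r) r)
    (hseg_le L (L + t) r) (hseg_le (-L) (-L + t) r)
  rintro z ⟨h | h, h1, h2⟩
  · rcases (abs_eq hL).1 h with h | h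
    · exact Or.inl (Or.inl (Or.inl ⟨h, by linarith, by linarith⟩))
    · exact Or.inl (Or.inl (Or.inr ⟨h, by linarith, by linarith⟩))
  · rcases (abs_eq hL).1 h with h | h
    · exact Or.inl (Or.inr ⟨h, by linarith, by linarith⟩)
    · exact Or.inr ⟨h, by linarith, by linarith⟩

/-- An unblocked ray of slope in `[0, 1]` passes above the corners of the obstacles below the
diagonal. -/
theorem gate (N : ℕ) (i j : ℤ) (hi : |i| ≤ N) (hj : |j| ≤ N) (hodd : Odd (i + j))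
    (x₀ y₀ x m : ℝ) (hx₀ : |x₀ - i| ≤ 1 / 100) (hy₀ : |y₀ - j| ≤ 1 / 100) (hm : 0 ≤ m)
    (hfree : ∀ s : ℝ, x₀ ≤ s → s < x → ¬ Blk (2 * N) ⟨s, y₀ + m * (s - x₀)⟩) (k : ℕ)
    (hki : i + k + 1 ≤ 2 * N) (hkj : j + k ≤ 2 * N) (hkx : (i : ℝ) + k + 7 / 10 < x) :
    (j : ℝ) + k + 3 / 10 < y₀ + m * (i + k + 7 / 10 - x₀) := by
  rw [abs_le] at hx₀ hy₀ hi hj
  have step : ∀ k : ℕ, i + k + 1 ≤ 2 * N → j + k ≤ 2 * N → (i : ℝ) + k + 7 / 10 < x →
      (j : ℝ) + k - 3 / 10 ≤ y₀ + m * (i + k + 7 / 10 - x₀) →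
      (j : ℝ) + k + 3 / 10 < y₀ + m * (i + k + 7 / 10 - x₀) := by
    intro k h1 h2 h3 h4
    have hk0 : (0 : ℝ) ≤ k := Nat.cast_nonneg k
    by_contra h5
    push Not at h5
    apply hfree (i + k + 7 / 10) (by linarith only [hx₀]) h3
    refine ⟨i + k + 1, j + k, ?_, ?_, ?_, ?_, ?_⟩
    · rw [abs_le]; push_cast; constructor <;> omega
    · rw [abs_le]; push_cast; constructor <;> omega
    · obtain ⟨t, ht⟩ := hodd
      exact ⟨t + k + 1, by omega⟩
    · rw [abs_le]; push_cast; constructor <;> linarith only []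
    · rw [abs_le]; push_cast; constructor <;> linarith only [h4, h5]
  have h0 : (j : ℝ) + (0 : ℕ) + 3 / 10 < y₀ + m * (i + (0 : ℕ) + 7 / 10 - x₀) := by
    have hk0 : (0 : ℝ) ≤ k := Nat.cast_nonneg k
    apply step 0 (by push_cast; omega) (by push_cast; omega) (by push_cast; linarith only [hkx])
    have : 0 ≤ m * (i + (0 : ℕ) + 7 / 10 - x₀) := mul_nonneg hm (by push_cast; linarith only [hx₀])
    push_cast at this ⊢
    linarith only [hy₀, this]
  have hm4 : 4 / 10 ≤ m := by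
    push_cast at h0
    have : m * (i + 0 + 7 / 10 - x₀) ≤ m * (71 / 100) :=
      mul_le_mul_of_nonneg_left (by linarith only [hx₀]) hm
    linarith only [hy₀, h0, this]
  induction k with
  | zero => exact h0
  | succ k ih =>
    have h1 := ih (by push_cast at hki ⊢; omega) (by push_cast at hkj ⊢; omega)
      (by push_cast at hkx ⊢; linarith only [hkx])
    apply step (k + 1) hki hkj hkx
    push_cast
    have : m * (i + (k + 1) + 7 / 10 - x₀) = m * (i + k + 7 / 10 - x₀) + m := by ring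
    rw [this]
    linarith only [hm4, h1]

/-- The sets that cover what is visible in the sector of slopes in `[0, 1]`. -/
def Cover (N : ℕ) (L : ℝ) (i j : ℤ) : Set ℂ :=
  (⋃ pq ∈ (Finset.range 3 ×ˢ Finset.range 3),
      Quad (i + pq.1) (j + pq.2) (i + pq.1 - 3 / 10) (j + pq.2 - 3 / 10) (6 / 10)) ∪
    (⋃ q ∈ Finset.Icc 1 (3 * N),
      Quad (i + q + 1) (j + q) (i + q + 7 / 10) (j + q + 3 / 10 - 1 / q) (1 / q)) ∪
    Out L (i - j - 1) (2 + 2 * L / N)

theorem cover_le (N : ℕ) (L : ℝ) (hL : 0 ≤ L) (i j : ℤ) :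
    μH[1] (Cover N L i j) ≤ ENNReal.ofReal (34 + 8 * L / N + 4 * Real.log (3 * N)) := by
  have h1 : μH[1] (⋃ pq ∈ (Finset.range 3 ×ˢ Finset.range 3),
      Quad (i + pq.1) (j + pq.2) (i + pq.1 - 3 / 10) (j + pq.2 - 3 / 10) (6 / 10)) ≤
      ENNReal.ofReal 22 := by
    refine (measure_biUnion_finset_le _ _).trans ?_
    refine (Finset.sum_le_sum fun pq _ => quad_le _ _ _ _ _ (by norm_num)).trans ?_
    rw [← ENNReal.ofReal_sum_of_nonneg (fun _ _ => by norm_num)]
    apply ENNReal.ofReal_le_ofReal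
    simp
    norm_num
  have hlog : 0 ≤ Real.log (3 * N) := by
    have := Real.log_natCast_nonneg (3 * N)
    push_cast at this
    exact this
  have h2 : μH[1] (⋃ q ∈ Finset.Icc 1 (3 * N),
      Quad (i + q + 1) (j + q) (i + q + 7 / 10) (j + q + 3 / 10 - 1 / q) (1 / q)) ≤
      ENNReal.ofReal (4 + 4 * Real.log (3 * N)) := by
    refine (measure_biUnion_finset_le _ _).trans ?_
    refine (Finset.sum_le_sum fun q _ => quad_le _ _ _ _ _ (by positivity)).trans ?_
    rw [← ENNReal.ofReal_sum_of_nonneg (fun _ _ => by positivity)]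
    apply ENNReal.ofReal_le_ofReal
    have h := harmonic_le_one_add_log (3 * N)
    rw [harmonic_eq_sum_Icc] at h
    push_cast at h
    rw [← Finset.mul_sum]
    simp only [one_div]
    linarith only [h]
  have h0 : 0 ≤ 2 * L / N := by positivity
  have h3 := out_le L (i - j - 1) (2 + 2 * L / N) hL (by linarith only [h0])
  unfold Cover
  refine (measure_union_le _ _).trans ?_
  refine (add_le_add ((measure_union_le _ _).trans (add_le_add h1 h2)) h3).trans ?_
  rw [← ENNReal.ofReal_add (by norm_num) (by linarith),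
    ← ENNReal.ofReal_add (by linarith) (by linarith only [h0])]
  apply ENNReal.ofReal_le_ofReal
  have : 8 * L / N = 4 * (2 * L / N) := by ring
  linarith only [this]

theorem sector_subset (N : ℕ) (hN : 1 ≤ N) (L : ℝ) (hL : 8 * N ≤ L) (i j : ℤ) (hi : |i| ≤ N)
    (hj : |j| ≤ N) (hodd : Odd (i + j)) (v : ℂ) (hx₀ : |v.re - i| ≤ 1 / 100)
    (hy₀ : |v.im - j| ≤ 1 / 100) (u : ℂ) (hu : u ∈ Vis (2 * N) L v) (h1 : v.im ≤ u.im)
    (h2 : u.im - v.im ≤ u.re - v.re) : u ∈ Cover N L i j := by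
  obtain ⟨hw, hfree⟩ := hu
  have hN1 : (1 : ℝ) ≤ N := by exact_mod_cast hN
  have hx₀' := abs_le.1 hx₀
  have hy₀' := abs_le.1 hy₀
  have hi' := abs_le.1 hi
  have hj' := abs_le.1 hj
  have hiR : -(N : ℝ) ≤ i ∧ (i : ℝ) ≤ N := by
    constructor
    · exact_mod_cast hi'.1
    · exact_mod_cast hi'.2
  have hjR : -(N : ℝ) ≤ j ∧ (j : ℝ) ≤ N := by
    constructor
    · exact_mod_cast hj'.1
    · exact_mod_cast hj'.2
  have hL0 : 0 ≤ L := by linarith only [hL, hN1]
  by_cases hnear : u.re ≤ i + 17 / 10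
  · -- close to `v`
    rcases hw with ⟨p, q, -, -, -, hp, hq, hpq⟩ | ⟨-, -, hout⟩
    · left; left
      have hp' := abs_le.1 hp
      have hq' := abs_le.1 hq
      have a1 : (i : ℝ) - 1 < p := by linarith only [hp'.2, hx₀'.1, h1, h2]
      have a2 : (p : ℝ) < i + 3 := by linarith only [hp'.1, hnear]
      have a3 : (j : ℝ) - 1 < q := by linarith only [hq'.2, h1, hy₀'.1]
      have a4 : (q : ℝ) < j + 3 := by linarith only [hq'.1, h2, hy₀'.2, hx₀'.1, hnear]
      have b1 : i - 1 < p := by exact_mod_cast a1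
      have b2 : p < i + 3 := by exact_mod_cast a2
      have b3 : j - 1 < q := by exact_mod_cast a3
      have b4 : q < j + 3 := by exact_mod_cast a4
      obtain ⟨a, rfl⟩ : ∃ a : ℕ, p = i + a := ⟨(p - i).toNat, by omega⟩
      obtain ⟨b, rfl⟩ : ∃ b : ℕ, q = j + b := ⟨(q - j).toNat, by omega⟩
      simp only [mem_iUnion]
      refine ⟨(a, b), Finset.mem_product.2
        ⟨Finset.mem_range.2 (by show a < 3; omega), Finset.mem_range.2 (by show b < 3; omega)⟩, ?_⟩
      push_cast at hpq hp' hq'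
      exact ⟨hpq, ⟨by linarith only [hp'.1], by linarith only [hp'.2]⟩,
        ⟨by linarith only [hq'.1], by linarith only [hq'.2]⟩⟩
    · exfalso
      rcases hout with h | h
      · rcases (abs_eq hL0).1 h with h | h
        · linarith only [h, hnear, hiR.2, hL, hN1]
        · linarith only [h, hiR.1, hL, hN1, h1, h2, hx₀'.1]
      · rcases (abs_eq hL0).1 h with h | h
        · linarith only [h, hnear, hjR.2, hL, hN1, h2, hx₀'.1, hy₀'.2]
        · linarith only [h, hjR.1, hL, hN1, h1, hy₀'.1]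
  push Not at hnear
  have hdx : 0 < u.re - v.re := by linarith only [hnear, hx₀'.2]
  obtain ⟨m, hm⟩ : ∃ m : ℝ, m = (u.im - v.im) / (u.re - v.re) := ⟨_, rfl⟩
  have hm0 : 0 ≤ m := by rw [hm]; exact div_nonneg (sub_nonneg.2 h1) hdx.le
  have hm1 : m ≤ 1 := by rw [hm]; exact (div_le_one hdx).2 h2
  have hm1' : 0 ≤ 1 - m := sub_nonneg.2 hm1
  have hmy : u.im = v.im + m * (u.re - v.re) := by
    rw [hm, div_mul_cancel₀ _ hdx.ne']; ring
  have hfree' : ∀ s : ℝ, v.re ≤ s → s < u.re → ¬ Blk (2 * N) ⟨s, v.im + m * (s - v.re)⟩ := by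
    intro s hs1 hs2
    have := hfree ((s - v.re) / (u.re - v.re)) (div_nonneg (sub_nonneg.2 hs1) hdx.le)
      ((div_lt_one hdx).2 (sub_lt_sub_right hs2 _))
    have he : (⟨s, v.im + m * (s - v.re)⟩ : ℂ) =
        v + ((s - v.re) / (u.re - v.re)) • (u - v) := by
      apply Complex.ext
      · simp only [Complex.add_re, Complex.smul_re, Complex.sub_re, smul_eq_mul]
        rw [div_mul_cancel₀ _ hdx.ne']
        ring
      · simp only [Complex.add_im, Complex.smul_im, Complex.sub_im, smul_eq_mul]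
        rw [hm]
        ring
    rw [he]
    exact this
  have G := gate N i j hi hj hodd v.re v.im u.re m hx₀ hy₀ hm0 hfree'
  clear hfree hfree' hm
  -- the slope is close to 1 once the ray has passed the `k`-th corner
  have slope : ∀ k : ℕ, i + k + 1 ≤ 2 * N → j + k ≤ 2 * N → (i : ℝ) + k + 7 / 10 < u.re →
      (1 - m) * (k + 1) ≤ 1 := by
    intro k a1 a2 a3
    have h := G k a1 a2 a3
    have hk0 : (0 : ℝ) ≤ k := Nat.cast_nonneg k
    have h3 : (1 - m) * (i + k + 7 / 10 - v.re) < 42 / 100 := by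
      have e : (1 - m) * (i + k + 7 / 10 - v.re) =
        (i + k + 7 / 10 - v.re) - m * (i + k + 7 / 10 - v.re) := by ring
      rw [e]
      linarith only [h, hx₀'.1, hy₀'.2]
    have h4 : (1 - m) * (k + 69 / 100) ≤ (1 - m) * (i + k + 7 / 10 - v.re) :=
      mul_le_mul_of_nonneg_left (by linarith only [hx₀'.2]) hm1'
    have e : (1 - m) * (k + 1) = (1 - m) * (k + 69 / 100) + (1 - m) * (31 / 100) := by ring
    rw [e]
    linarith only [h3, h4, hm0]
  rcases hw with ⟨p, q, hpn, hqn, heven, hp, hq, hpq⟩ | ⟨hx, hy, hout⟩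
  · left; right
    have hp' := abs_le.1 hp
    have hq' := abs_le.1 hq
    have hpn' := abs_le.1 hpn
    have hqn' := abs_le.1 hqn
    push_cast at hpn' hqn'
    -- `k` is the last corner passed
    obtain ⟨k, hk1, hk2, hk3⟩ : ∃ k : ℕ, 1 ≤ k ∧ (i : ℝ) + k + 7 / 10 < u.re ∧
        u.re ≤ i + k + 17 / 10 := by
      have hpos : 0 < u.re - i - 17 / 10 := by linarith only [hnear]
      refine ⟨⌈u.re - i - 17 / 10⌉₊, Nat.one_le_iff_ne_zero.2 (Nat.ceil_pos.2 hpos).ne', ?_, ?_⟩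
      · have := Nat.ceil_lt_add_one hpos.le
        linarith only [this]
      · have := Nat.le_ceil (u.re - i - 17 / 10)
        linarith only [this]
    have hkp : i + k + 1 ≤ p := by
      have : (i : ℝ) + k < p := by linarith only [hk2, hp'.2]
      have : i + k < p := by exact_mod_cast this
      omega
    have hkj : j + k ≤ 2 * N := by
      by_contra hcon
      push Not at hcon
      obtain ⟨k', hk'⟩ : ∃ k' : ℕ, j + k' = 2 * N := ⟨(2 * N - j).toNat, by omega⟩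
      have hlt : k' < k := by omega
      have hltR : (k' : ℝ) + 1 ≤ k := by exact_mod_cast hlt
      have h := G k' (by omega) hk'.le (by linarith only [hltR, hk2])
      have h3 : m * (i + k' + 7 / 10 - v.re) ≤ m * (u.re - v.re) :=
        mul_le_mul_of_nonneg_left (by linarith only [hltR, hk2]) hm0
      have h4 : (q : ℝ) ≤ j + k' := by
        have : q ≤ j + k' := by omega
        exact_mod_cast this
      linarith only [h, h3, h4, hmy, hq'.2]
    have hG := G k (by omega) hkj hk2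
    have hS := slope k (by omega) hkj hk2
    have hk1R : (1 : ℝ) ≤ k := by exact_mod_cast hk1
    have hmhalf : 1 - m ≤ 1 / 2 := by
      have : (1 - m) * 2 ≤ (1 - m) * (k + 1) :=
        mul_le_mul_of_nonneg_left (by linarith only [hk1R]) hm1'
      linarith only [this, hS]
    -- the offset from the diagonal
    have ht1 : u.re - i - (u.im - j) ≤ 4 / 10 + (1 - m) := by
      have : m * (u.re - v.re) = m * (i + k + 7 / 10 - v.re) + (u.re - (i + k + 7 / 10)) -
        (1 - m) * (u.re - (i + k + 7 / 10)) := by ring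
      have h3 : (1 - m) * (u.re - (i + k + 7 / 10)) ≤ (1 - m) * 1 :=
        mul_le_mul_of_nonneg_left (by linarith only [hk3]) hm1'
      linarith only [this, h3, hG, hmy]
    have hpq1 : p - i - (q - j) = 1 := by
      have a1 : (p : ℝ) - i - (q - j) < 2 := by linarith only [ht1, hmhalf, hp'.1, hq'.2]
      have a2 : (-1 : ℝ) < p - i - (q - j) := by
        linarith only [h2, hx₀'.1, hy₀'.2, hp'.2, hq'.1]
      have b1 : p - i - (q - j) < 2 := by exact_mod_cast a1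
      have b2 : -1 < p - i - (q - j) := by exact_mod_cast a2
      obtain ⟨s, hs⟩ := heven
      obtain ⟨t, ht⟩ := hodd
      omega
    obtain ⟨b, rfl⟩ : ∃ b : ℕ, q = j + b := ⟨(q - j).toNat, by omega⟩
    obtain rfl : p = i + b + 1 := by omega
    push_cast at hpq hp' hq'
    have hbk : b ≤ k + 1 := by
      have : (b : ℝ) < k + 2 := by linarith only [hp'.1, hk3]
      have : b < k + 2 := by exact_mod_cast this
      omega
    have hb1 : 1 ≤ b := by omega
    have hbR : (0 : ℝ) < b := by exact_mod_cast hb1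
    have hmb : 1 - m ≤ 1 / b := by
      rw [le_div_iff₀ hbR]
      have : (b : ℝ) ≤ k + 1 := by exact_mod_cast hbk
      exact (mul_le_mul_of_nonneg_left this hm1').trans hS
    simp only [mem_iUnion]
    refine ⟨b, Finset.mem_Icc.2 ⟨hb1, by omega⟩, ?_⟩
    exact ⟨hpq, ⟨by linarith only [hp'.1], by linarith only [hp'.1, ht1, hmb, hq'.2]⟩,
      ⟨by linarith only [hp'.1, ht1, hmb], by linarith only [hq'.2]⟩⟩
  · right
    have hx' := abs_le.1 hx
    have hy' := abs_le.1 hy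
    have hfar : (i : ℝ) + N < u.re := by
      rcases hout with h | h
      · rcases (abs_eq hL0).1 h with h | h
        · linarith only [h, hiR.2, hL, hN1]
        · linarith only [h, hiR.1, hL, hN1, hnear]
      · rcases (abs_eq hL0).1 h with h | h
        · linarith only [h, hjR.2, hL, hN1, h2, hx₀'.1, hy₀'.2]
        · linarith only [h, hjR.1, hL, hN1, h1, hy₀'.1]
    obtain ⟨k, rfl⟩ : ∃ k, N = k + 1 := ⟨N - 1, by omega⟩
    have hS := slope k (by push_cast at hi' ⊢; omega) (by push_cast at hj' ⊢; omega)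
      (by push_cast at hfar; linarith only [hfar])
    refine ⟨hout, by linarith only [h2, hx₀'.1, hy₀'.2], ?_⟩
    have h3 : (1 - m) * (u.re - v.re) ≤ 2 * L / ((k + 1 : ℕ) : ℝ) := by
      rw [le_div_iff₀ (by linarith only [hN1])]
      push_cast at hN1 hL hiR ⊢
      have h4 : u.re - v.re ≤ 2 * L := by linarith only [hx'.2, hx₀'.1, hiR.1, hL, hN1]
      have h5 : (1 - m) * (k + 1) * (u.re - v.re) ≤ 1 * (2 * L) :=
        mul_le_mul hS h4 hdx.le zero_le_one
      linarith only [h5]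
    linarith only [h3, hmy, hx₀'.2, hy₀'.1]

/-- Transport of a bound along a symmetry `g` of the configuration. -/
theorem transport (N n : ℕ) (L : ℝ) (g : ℂ → ℂ) (hg : Isometry g)
    (hlin : ∀ (v u : ℂ) (τ : ℝ), g (v + τ • (u - v)) = g v + τ • (g u - g v))
    (hB : ∀ z, Blk n (g z) → Blk n z) (hW : ∀ z, Wall n L z → Wall n L (g z))
    (hA : ∀ z, Adm N z → Adm N (g z)) (P Q : ℂ → ℂ → Prop) (K : ℝ≥0∞)
    (hP : ∀ v, Adm N v → μH[1] {u | u ∈ Vis n L v ∧ P v u} ≤ K)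
    (hQ : ∀ v u, Q v u → P v u ∨ P (g v) (g u)) (v : ℂ) (hv : Adm N v) :
    μH[1] {u | u ∈ Vis n L v ∧ Q v u} ≤ 2 * K := by
  have hsub : {u | u ∈ Vis n L v ∧ Q v u} ⊆
      {u | u ∈ Vis n L v ∧ P v u} ∪ g ⁻¹' {u | u ∈ Vis n L (g v) ∧ P (g v) u} := by
    rintro u ⟨hu, hq⟩
    rcases hQ v u hq with h | h
    · exact Or.inl ⟨hu, h⟩
    · refine Or.inr ⟨⟨hW u hu.1, fun τ h0 h1 hb => hu.2 τ h0 h1 (hB _ ?_)⟩, h⟩
      rwa [hlin]
  refine (measure_mono hsub).trans ((measure_union_le _ _).trans ?_)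
  rw [two_mul]
  refine add_le_add (hP v hv) ?_
  rw [hg.hausdorffMeasure_preimage (Or.inl zero_le_one)]
  exact (measure_mono inter_subset_left).trans (hP _ (hA v hv))

theorem abs_neg_sub_neg (x : ℝ) (i : ℤ) : |-x - ((-i : ℤ) : ℝ)| = |x - i| := by
  rw [← abs_neg]
  congr 1
  push_cast
  ring

theorem abs_sub_neg (x : ℝ) (i : ℤ) : |x - ((-i : ℤ) : ℝ)| = |-x - i| := by
  rw [← abs_neg]
  congr 1
  push_cast
  ring

/-- The total length of what is visible from an admissible point. -/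
theorem vis_le (N : ℕ) (hN : 1 ≤ N) (L : ℝ) (hL : 8 * N ≤ L) (v : ℂ) (hv : Adm N v) :
    μH[1] (Vis (2 * N) L v) ≤ ENNReal.ofReal (8 * (34 + 8 * L / N + 4 * Real.log (3 * N))) := by
  have hL0 : 0 ≤ L := le_trans (by positivity) hL
  set K := ENNReal.ofReal (34 + 8 * L / N + 4 * Real.log (3 * N)) with hK
  have h1 : ∀ v, Adm N v → μH[1] {u | u ∈ Vis (2 * N) L v ∧
      (v.im ≤ u.im ∧ u.im - v.im ≤ u.re - v.re)} ≤ K := by
    rintro v ⟨i, j, hi, hj, hodd, hx, hy⟩
    refine le_trans (measure_mono ?_) (cover_le N L hL0 i j)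
    rintro u ⟨hu, ha, hb⟩
    exact sector_subset N hN L hL i j hi hj hodd v hx hy u hu ha hb
  have h2 : ∀ v, Adm N v → μH[1] {u | u ∈ Vis (2 * N) L v ∧
      (v.im ≤ u.im ∧ v.re ≤ u.re)} ≤ 2 * K := by
    refine transport N (2 * N) L (fun z => ⟨z.im, z.re⟩) ?_ ?_ ?_ ?_ ?_ _ _ K h1 ?_
    · apply Isometry.of_dist_eq
      intro a b
      rw [Complex.dist_eq_re_im, Complex.dist_eq_re_im, add_comm]
    · intro v u τ
      apply Complex.ext <;> simp
    · rintro z ⟨i, j, hi, hj, he, hx, hy⟩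
      exact ⟨j, i, hj, hi, by rwa [add_comm], hy, hx⟩
    · rintro z (⟨i, j, hi, hj, he, hx, hy, hxy⟩ | ⟨hx, hy, hxy⟩)
      · exact Or.inl ⟨j, i, hj, hi, by rwa [add_comm], hy, hx, hxy.symm⟩
      · exact Or.inr ⟨hy, hx, hxy.symm⟩
    · rintro z ⟨i, j, hi, hj, he, hx, hy⟩
      exact ⟨j, i, hj, hi, by rwa [add_comm], hy, hx⟩
    · rintro v u ⟨ha, hb⟩
      rcases le_total (u.im - v.im) (u.re - v.re) with h | h
      · exact Or.inl ⟨ha, h⟩
      · exact Or.inr ⟨hb, h⟩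
  have h3 : ∀ v, Adm N v → μH[1] {u | u ∈ Vis (2 * N) L v ∧ v.re ≤ u.re} ≤ 2 * (2 * K) := by
    refine transport N (2 * N) L (fun z => ⟨z.re, -z.im⟩) ?_ ?_ ?_ ?_ ?_ _ _ _ h2 ?_
    · apply Isometry.of_dist_eq
      intro a b
      rw [Complex.dist_eq_re_im, Complex.dist_eq_re_im]
      congr 1
      ring
    · intro v u τ
      apply Complex.ext <;> simp
      ring
    · rintro z ⟨i, j, hi, hj, ⟨t, he⟩, hx, hy⟩
      exact ⟨i, -j, hi, by rwa [abs_neg], ⟨t - j, by omega⟩, hx, by rwa [abs_sub_neg]⟩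
    · rintro z (⟨i, j, hi, hj, ⟨t, he⟩, hx, hy, hxy⟩ | ⟨hx, hy, hxy⟩)
      · exact Or.inl ⟨i, -j, hi, by rwa [abs_neg], ⟨t - j, by omega⟩, hx,
          by rwa [abs_neg_sub_neg], by rwa [abs_neg_sub_neg]⟩
      · exact Or.inr ⟨hx, by rwa [abs_neg], by rwa [abs_neg]⟩
    · rintro z ⟨i, j, hi, hj, ⟨t, he⟩, hx, hy⟩
      exact ⟨i, -j, hi, by rwa [abs_neg], ⟨t - j, by omega⟩, hx, by rwa [abs_neg_sub_neg]⟩
    · rintro v u hb
      rcases le_total v.im u.im with h | h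
      · exact Or.inl ⟨h, hb⟩
      · exact Or.inr ⟨neg_le_neg h, hb⟩
  have h4 : μH[1] {u | u ∈ Vis (2 * N) L v ∧ True} ≤ 2 * (2 * (2 * K)) := by
    refine transport N (2 * N) L (fun z => ⟨-z.re, z.im⟩) ?_ ?_ ?_ ?_ ?_ _ (fun _ _ => True) _ h3
      ?_ v hv
    · apply Isometry.of_dist_eq
      intro a b
      rw [Complex.dist_eq_re_im, Complex.dist_eq_re_im]
      congr 1
      ring
    · intro v u τ
      apply Complex.ext <;> simp
      ring
    · rintro z ⟨i, j, hi, hj, ⟨t, he⟩, hx, hy⟩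
      exact ⟨-i, j, by rwa [abs_neg], hj, ⟨t - i, by omega⟩, by rwa [abs_sub_neg], hy⟩
    · rintro z (⟨i, j, hi, hj, ⟨t, he⟩, hx, hy, hxy⟩ | ⟨hx, hy, hxy⟩)
      · exact Or.inl ⟨-i, j, by rwa [abs_neg], hj, ⟨t - i, by omega⟩,
          by rwa [abs_neg_sub_neg], hy, by rwa [abs_neg_sub_neg]⟩
      · exact Or.inr ⟨by rwa [abs_neg], hy, by rwa [abs_neg]⟩
    · rintro z ⟨i, j, hi, hj, ⟨t, he⟩, hx, hy⟩
      exact ⟨-i, j, by rwa [abs_neg], hj, ⟨t - i, by omega⟩, by rwa [abs_neg_sub_neg], hy⟩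
    · rintro v u -
      rcases le_total v.re u.re with h | h
      · exact Or.inl h
      · exact Or.inr (neg_le_neg h)
  simp only [and_true, ofPred_mem_eq] at h4
  refine h4.trans (le_of_eq ?_)
  rw [ENNReal.ofReal_mul (by norm_num), ← hK, ENNReal.ofReal_ofNat]
  ring

end Pool.Agent.Work.MP_9521de_co
end

-- merged part: Pool.Agent.Work.MP_9521de_co.Area
section
/-!
The checkerboard of squares: areas, and the link between the visible boundary and `Vis`.
-/

namespace Pool.Agent.Work.MP_9521de_co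

open MeasureTheory Set
open scoped ENNReal

/-- A closed axis-parallel square given by its centre and half side. -/
def Sq (x y r : ℝ) : Set ℂ := {z | |z.re - x| ≤ r ∧ |z.im - y| ≤ r}

/-- The obstacles. -/
def Obst (n : ℕ) : Set (Set ℂ) :=
  {S | ∃ i j : ℤ, |i| ≤ n ∧ |j| ≤ n ∧ Even (i + j) ∧ S = Sq i j (3 / 10)}

theorem mem_sUnion_Obst (n : ℕ) (z : ℂ) : z ∈ ⋃₀ Obst n ↔ Blk n z := by
  constructor
  · rintro ⟨S, ⟨i, j, hi, hj, he, rfl⟩, hz⟩
    exact ⟨i, j, hi, hj, he, hz.1, hz.2⟩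
  · rintro ⟨i, j, hi, hj, he, hx, hy⟩
    exact ⟨_, ⟨i, j, hi, hj, he, rfl⟩, hx, hy⟩

theorem Sq_eq (x y r : ℝ) : Sq x y r =
    {z : ℂ | z.re ∈ Icc (x - r) (x - r + 2 * r) ∧ z.im ∈ Icc (y - r) (y - r + 2 * r)} := by
  ext z
  simp only [Sq, mem_ofPred_eq, abs_le, mem_Icc]
  constructor
  · rintro ⟨⟨a, b⟩, c, d⟩
    exact ⟨⟨by linarith, by linarith⟩, by linarith, by linarith⟩
  · rintro ⟨⟨a, b⟩, c, d⟩
    exact ⟨⟨by linarith, by linarith⟩, by linarith, by linarith⟩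

theorem isSquare_Sq (x y r : ℝ) (hr : 0 < r) : IsSquare (Sq x y r) :=
  ⟨x - r, y - r, 2 * r, by linarith, Sq_eq x y r⟩

theorem isClosed_Sq (x y r : ℝ) : IsClosed (Sq x y r) := by
  have h1 : IsClosed {z : ℂ | |z.re - x| ≤ r} := isClosed_le (by fun_prop) (by fun_prop)
  have h2 : IsClosed {z : ℂ | |z.im - y| ≤ r} := isClosed_le (by fun_prop) (by fun_prop)
  exact h1.inter h2

theorem mem_interior_Sq {x y r : ℝ} {z : ℂ} (hx : |z.re - x| < r) (hy : |z.im - y| < r) :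
    z ∈ interior (Sq x y r) := by
  have h1 : IsOpen {z : ℂ | |z.re - x| < r} := isOpen_lt (by fun_prop) (by fun_prop)
  have h2 : IsOpen {z : ℂ | |z.im - y| < r} := isOpen_lt (by fun_prop) (by fun_prop)
  have hopen : IsOpen {z : ℂ | |z.re - x| < r ∧ |z.im - y| < r} := h1.inter h2
  exact mem_interior.2 ⟨_, fun w hw => ⟨hw.1.le, hw.2.le⟩, hopen, hx, hy⟩

theorem finite_Obst (n : ℕ) : (Obst n).Finite := by
  have h : ((Icc (-(n : ℤ)) n) ×ˢ (Icc (-(n : ℤ)) n)).Finite :=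
    (finite_Icc _ _).prod (finite_Icc _ _)
  refine (h.image fun p : ℤ × ℤ => Sq p.1 p.2 (3 / 10)).subset ?_
  rintro S ⟨i, j, hi, hj, -, rfl⟩
  exact ⟨(i, j), ⟨abs_le.1 hi, abs_le.1 hj⟩, rfl⟩

theorem isClosed_Obst (n : ℕ) : IsClosed (⋃₀ Obst n) := by
  rw [sUnion_eq_biUnion]
  refine (finite_Obst n).isClosed_biUnion ?_
  rintro S ⟨i, j, -, -, -, rfl⟩
  exact isClosed_Sq _ _ _

theorem int_eq_of_abs {i j : ℤ} (h : |(i : ℝ) - j| < 1) : i = j := by
  have h' := abs_lt.1 h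
  have a : (-1 : ℤ) < i - j := by exact_mod_cast h'.1
  have b : i - j < 1 := by exact_mod_cast h'.2
  omega

theorem pairwiseDisjoint_Obst (n : ℕ) : (Obst n).PairwiseDisjoint id := by
  rintro S ⟨i, j, -, -, -, rfl⟩ T ⟨p, q, -, -, -, rfl⟩ hne
  refine Set.disjoint_left.2 fun z hz hz' => hne ?_
  obtain ⟨a, b⟩ := hz
  obtain ⟨c, d⟩ := hz'
  rw [abs_le] at a b c d
  have h1 : i = p := int_eq_of_abs (abs_lt.2 ⟨by linarith only [a, c], by linarith only [a, c]⟩)
  have h2 : j = q := int_eq_of_abs (abs_lt.2 ⟨by linarith only [b, d], by linarith only [b, d]⟩)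
  rw [h1, h2]

theorem wall_of_mem (n : ℕ) (L : ℝ) (z : ℂ)
    (hz : z ∈ frontier (⋃₀ Obst n) ∪ frontier (Sq 0 0 L)) : Wall n L z := by
  rcases hz with hz | hz
  · left
    obtain ⟨i, j, hi, hj, he, hx, hy⟩ :=
      (mem_sUnion_Obst n z).1 ((isClosed_Obst n).frontier_subset hz)
    refine ⟨i, j, hi, hj, he, hx, hy, ?_⟩
    by_contra hcon
    push Not at hcon
    apply hz.2
    have hmem : Sq i j (3 / 10) ∈ Obst n := ⟨i, j, hi, hj, he, rfl⟩
    exact interior_mono (subset_sUnion_of_mem hmem)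
      (mem_interior_Sq (lt_of_le_of_ne hx hcon.1) (lt_of_le_of_ne hy hcon.2))
  · right
    obtain ⟨hx, hy⟩ := (isClosed_Sq 0 0 L).frontier_subset hz
    have hz2 := hz.2
    rw [sub_zero] at hx hy
    refine ⟨hx, hy, ?_⟩
    by_contra hcon
    push Not at hcon
    apply hz2
    apply mem_interior_Sq
    · rw [sub_zero]; exact lt_of_le_of_ne hx hcon.1
    · rw [sub_zero]; exact lt_of_le_of_ne hy hcon.2

theorem visibleBoundary_subset (n : ℕ) (L : ℝ) (v : ℂ) (hv : ¬ Blk n v) :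
    visibleBoundary (frontier (⋃₀ Obst n) ∪ frontier (Sq 0 0 L)) v ⊆ Vis n L v := by
  rintro u ⟨hu, hvis⟩
  refine ⟨wall_of_mem n L u hu, fun τ h0 h1 hb => ?_⟩
  set B := ⋃₀ Obst n with hB
  have hcl : IsClosed B := isClosed_Obst n
  have hvB : v ∉ B := fun h => hv ((mem_sUnion_Obst n v).1 h)
  have hpB : v + τ • (u - v) ∈ B := (mem_sUnion_Obst n _).2 hb
  have hpre : IsPreconnected ((fun t : ℝ => v + t • (u - v)) '' Icc 0 τ) :=
    isPreconnected_Icc.image _ (by fun_prop)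
  have hex : ∃ t ∈ Icc (0 : ℝ) τ, v + t • (u - v) ∈ frontier B := by
    by_contra hcon
    push Not at hcon
    have hcover : (fun t : ℝ => v + t • (u - v)) '' Icc 0 τ ⊆ interior B ∪ Bᶜ := by
      rintro _ ⟨t, ht, rfl⟩
      by_cases hm : v + t • (u - v) ∈ B
      · left
        by_contra hi
        exact hcon t ht ⟨subset_closure hm, hi⟩
      · exact Or.inr hm
    obtain ⟨w, -, hw1, hw2⟩ := hpre _ _ isOpen_interior hcl.isOpen_compl hcover
      ⟨v + τ • (u - v), ⟨τ, ⟨h0, le_rfl⟩, rfl⟩,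
        (hcover ⟨τ, ⟨h0, le_rfl⟩, rfl⟩).resolve_right fun h => h hpB⟩
      ⟨v, ⟨0, ⟨le_rfl, h0⟩, by simp⟩, hvB⟩
    exact hw2 (interior_subset hw1)
  obtain ⟨t, ht, hfr⟩ := hex
  have hseg : v + t • (u - v) ∈ segment ℝ v u := by
    rw [segment_eq_image']
    exact ⟨t, ⟨ht.1, by linarith [ht.2]⟩, rfl⟩
  have hne : v + t • (u - v) ≠ u := by
    clear * - v t u τ h1 ht hvB B hpB
    intro h
    have h2 : (1 - t) • (u - v) = 0 := by
      rw [sub_smul, one_smul]
      linear_combination -h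
    rcases smul_eq_zero.1 h2 with h3 | h3
    · linarith [ht.2]
    · rw [h3, smul_zero, add_zero] at hpB
      exact hvB hpB
  have := hvis _ hseg hne (Or.inl hfr)
  rw [this] at hfr
  exact hvB (hcl.frontier_subset hfr)

theorem volume_shear (e : ℝ) (s t : Set ℝ) (hs : MeasurableSet s) (ht : MeasurableSet t) :
    volume {z : ℂ | z.im ∈ t ∧ z.re - e * z.im ∈ s} = volume s * volume t := by
  have hS : MeasurableSet {p : ℝ × ℝ | p.2 ∈ t ∧ p.1 - e * p.2 ∈ s} :=
    (measurable_snd ht).inter ((by fun_prop : Measurable fun p : ℝ × ℝ => p.1 - e * p.2) hs)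
  have h1 := Complex.volume_preserving_equiv_real_prod.measure_preimage hS.nullMeasurableSet
  have h2 : Complex.measurableEquivRealProd ⁻¹' {p : ℝ × ℝ | p.2 ∈ t ∧ p.1 - e * p.2 ∈ s} =
      {z : ℂ | z.im ∈ t ∧ z.re - e * z.im ∈ s} := rfl
  rw [← h2, h1, Measure.volume_eq_prod, Measure.prod_apply_symm hS]
  have h3 : ∀ y : ℝ, volume ((fun x : ℝ => (x, y)) ⁻¹' {p : ℝ × ℝ | p.2 ∈ t ∧ p.1 - e * p.2 ∈ s}) =
      t.indicator (fun _ => volume s) y := by
    intro y
    by_cases hy : y ∈ t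
    · rw [indicator_of_mem hy, ← measure_preimage_add_right volume (-(e * y)) s]
      congr 1
      ext x
      simp [hy, sub_eq_add_neg]
    · rw [indicator_of_notMem hy]
      have : (fun x : ℝ => (x, y)) ⁻¹' {p : ℝ × ℝ | p.2 ∈ t ∧ p.1 - e * p.2 ∈ s} = ∅ := by
        ext x
        simp [hy]
      rw [this, measure_empty]
  simp_rw [h3]
  rw [lintegral_indicator_const ht]

/-- A parallelogram with two horizontal sides. -/
def Par (e a b c d : ℝ) : Set ℂ := {z | z.im ∈ Icc a b ∧ z.re - e * z.im ∈ Icc c d}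

theorem volume_Par (e a b c d : ℝ) (hcd : c ≤ d) :
    volume (Par e a b c d) = ENNReal.ofReal ((d - c) * (b - a)) := by
  unfold Par
  rw [volume_shear e _ _ measurableSet_Icc measurableSet_Icc, Real.volume_Icc, Real.volume_Icc,
    ENNReal.ofReal_mul (by linarith)]

theorem convex_Par (e a b c d : ℝ) : Convex ℝ (Par e a b c d) := by
  rintro x ⟨hx1, hx2⟩ y ⟨hy1, hy2⟩ α β hα hβ hαβ
  refine ⟨?_, ?_⟩
  · have := convex_Icc a b hx1 hy1 hα hβ hαβ
    simpa using this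
  · have := convex_Icc c d hx2 hy2 hα hβ hαβ
    convert this using 1
    simp
    ring

theorem volume_Sq (r : ℝ) (hr : 0 ≤ r) : volume (Sq 0 0 r) = ENNReal.ofReal (4 * r ^ 2) := by
  have : Sq 0 0 r = Par 0 (-r) r (-r) r := by
    ext z
    simp only [Sq, Par, mem_ofPred_eq, abs_le, mem_Icc, sub_zero, zero_mul]
    tauto
  rw [this, volume_Par _ _ _ _ _ (by linarith only [hr])]
  congr 1
  ring

theorem gap (n : ℕ) (L y : ℝ) (hL : n + 1 ≤ L) (hy : |y| ≤ L)
    (hD : ∀ j : ℤ, |j| ≤ n → 3 / 10 < |y - j|) :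
    ∃ a : ℝ, a ≤ y ∧ y ≤ a + 1 / 10 ∧ -L ≤ a ∧ a + 1 / 10 ≤ L ∧
      ∀ t : ℝ, a ≤ t → t ≤ a + 1 / 10 → ∀ j : ℤ, |j| ≤ n → 3 / 10 < |t - j| := by
  have hy' := abs_le.1 hy
  have hn : (0 : ℝ) ≤ n := Nat.cast_nonneg n
  have hcast : ∀ j : ℤ, |j| ≤ n → -(n : ℝ) ≤ j ∧ (j : ℝ) ≤ n := by
    intro j hj
    have := abs_le.1 hj
    exact ⟨by exact_mod_cast this.1, by exact_mod_cast this.2⟩
  by_cases h1 : (n : ℝ) + 3 / 10 < y
  · by_cases h2 : y ≤ n + 1 / 2
    · refine ⟨y, le_rfl, by linarith only [], by linarith only [hL, h1], by linarith only [hL, h2], fun t a b j hj => ?_⟩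
      have := hcast j hj
      exact lt_abs.2 (Or.inl (by linarith only [h1, a, this]))
    · refine ⟨y - 1 / 10, by linarith only [], by linarith only [], by linarith only [hL, h2], by linarith only [hy'], fun t a b j hj => ?_⟩
      have := hcast j hj
      exact lt_abs.2 (Or.inl (by linarith only [h2, a, this]))
  by_cases h3 : y < -(n : ℝ) - 3 / 10
  · by_cases h2 : y ≤ -(n : ℝ) - 1 / 2
    · refine ⟨y, le_rfl, by linarith only [], by linarith only [hy'], by linarith only [hL, h1], fun t a b j hj => ?_⟩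
      have := hcast j hj
      exact lt_abs.2 (Or.inr (by linarith only [h2, b, this]))
    · refine ⟨y - 1 / 10, by linarith only [h3, h2], by linarith only [], by linarith only [hL, h3, h2], by linarith only [hL, h3, h2], fun t a b j hj => ?_⟩
      have := hcast j hj
      exact lt_abs.2 (Or.inr (by linarith only [h3, b, this]))
  push Not at h1 h3
  have f1 := Int.floor_le y
  have f2 := Int.lt_floor_add_one y
  set k := ⌊y⌋ with hk
  have k1 : -(n : ℤ) ≤ k := by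
    clear * - y n hD h3
    have h := hD (-(n : ℤ)) (by simp)
    have : -(n : ℝ) ≤ y := by
      rcases lt_abs.1 h with h | h
      · push_cast at h; linarith only [h]
      · push_cast at h; linarith only [h3, h]
    exact Int.le_floor.2 (by push_cast; exact this)
  have k2 : k + 1 ≤ n := by
    clear * - y n hD h1 k
    have h := hD (n : ℤ) (by simp)
    have : y < n := by
      rcases lt_abs.1 h with h | h
      · push_cast at h; linarith only [h1, h]
      · push_cast at h; linarith only [h]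
    have : k < n := Int.floor_lt.2 (by push_cast; exact this)
    omega
  have k1R : -(n : ℝ) ≤ k := by exact_mod_cast k1
  have k2R : (k : ℝ) + 1 ≤ n := by exact_mod_cast k2
  have g1 : (k : ℝ) + 3 / 10 < y := by
    clear * - y k hD n k1 k2 f1
    rcases lt_abs.1 (hD k (abs_le.2 ⟨k1, by omega⟩)) with h | h <;> linarith only [h, f1]
  have g2 : y < (k : ℝ) + 7 / 10 := by
    clear * - y k hD n k1 k2 f2 g1
    rcases lt_abs.1 (hD (k + 1) (abs_le.2 ⟨by omega, k2⟩)) with h | h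
    · push_cast at h; linarith only [f2, g1, h]
    · push_cast at h; linarith only [h]
  have fin : ∀ t : ℝ, (k : ℝ) + 3 / 10 < t → t < (k : ℝ) + 7 / 10 → ∀ j : ℤ, 3 / 10 < |t - j| := by
    clear * - k
    intro t a b j
    rcases le_or_gt j k with h | h
    · have : (j : ℝ) ≤ k := by exact_mod_cast h
      exact lt_abs.2 (Or.inl (by linarith only [a, this]))
    · have : (k : ℝ) + 1 ≤ j := by exact_mod_cast h
      exact lt_abs.2 (Or.inr (by linarith only [b, this]))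
  by_cases h2 : y ≤ k + 1 / 2
  · exact ⟨y, le_rfl, by linarith only [f2, g1], by linarith only [hL, f2, k1R, g1], by linarith only [hL, f2, k2R, g1],
      fun t a b j _ => fin t (by clear * - k t y g1 a b fin j; linarith only [g1, a]) (by linarith only [f2, h2, b]) j⟩
  · exact ⟨y - 1 / 10, by linarith only [f2, h2], by linarith only [], by linarith only [hL, f2, k1R, h2], by linarith only [hL, f2, k2R, h2],
      fun t a b j _ => fin t (by linarith only [f2, h2, a]) (by linarith only [g2, b]) j⟩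

/-- Every free point lies in a free parallelogram of area at least `4 n / 5`. -/
theorem exists_Par (n : ℕ) (hn : 2 ≤ n) (L : ℝ) (hL : 4 * n ≤ L) (v : ℂ)
    (hv : v ∈ Sq 0 0 L \ ⋃₀ Obst n) :
    ∃ e a b c d : ℝ, c ≤ d ∧ 4 * n / 5 ≤ (d - c) * (b - a) ∧ v ∈ Par e a b c d ∧
      Par e a b c d ⊆ Sq 0 0 L \ ⋃₀ Obst n := by
  have hnR : (2 : ℝ) ≤ n := by exact_mod_cast hn
  obtain ⟨⟨hx, hy⟩, hB⟩ := hv
  rw [sub_zero] at hx hy
  rw [mem_sUnion_Obst] at hB
  by_cases hDy : ∀ j : ℤ, |j| ≤ n → 3 / 10 < |v.im - j|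
  · obtain ⟨a, a1, a2, a3, a4, a5⟩ := gap n L v.im (by linarith only [hL, hnR]) hy hDy
    refine ⟨0, a, a + 1 / 10, -L, L, by linarith only [hL, hnR], by linarith only [hL],
      ⟨⟨a1, a2⟩, by simpa using abs_le.1 hx⟩, ?_⟩
    rintro z ⟨⟨z1, z2⟩, z3, z4⟩
    refine ⟨⟨abs_le.2 ⟨by linarith only [z3], by linarith only [z4]⟩, abs_le.2 ⟨by linarith only [a3, z1], by linarith only [a4, z2]⟩⟩, ?_⟩
    rw [mem_sUnion_Obst]
    rintro ⟨i, j, -, hj, -, -, h⟩
    exact absurd (a5 z.im z1 z2 j hj) (not_lt.2 h)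
  by_cases hDx : ∀ j : ℤ, |j| ≤ n → 3 / 10 < |v.re - j|
  · obtain ⟨a, a1, a2, a3, a4, a5⟩ := gap n L v.re (by linarith only [hL, hnR]) hx hDx
    refine ⟨0, -L, L, a, a + 1 / 10, by linarith only [], by linarith only [hL],
      ⟨abs_le.1 hy, by linarith only [a1], by linarith only [a2]⟩, ?_⟩
    rintro z ⟨⟨z1, z2⟩, z3, z4⟩
    refine ⟨⟨abs_le.2 ⟨by linarith only [a3, z3], by linarith only [a4, z4]⟩, abs_le.2 ⟨by linarith only [z1], by linarith only [z2]⟩⟩, ?_⟩
    rw [mem_sUnion_Obst]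
    rintro ⟨i, j, hi, -, -, h, -⟩
    exact absurd (a5 z.re (by linarith only [z3]) (by linarith only [z4]) i hi) (not_lt.2 h)
  push Not at hDx hDy
  obtain ⟨i, hi, hxi⟩ := hDx
  obtain ⟨j, hj, hyj⟩ := hDy
  have hodd : ¬ Even (i + j) := fun h => hB ⟨i, j, hi, hj, h, hxi, hyj⟩
  have hi' := abs_le.1 hi
  have hj' := abs_le.1 hj
  have i1 : -(n : ℝ) ≤ i := by exact_mod_cast hi'.1
  have i2 : (i : ℝ) ≤ n := by exact_mod_cast hi'.2
  have j1 : -(n : ℝ) ≤ j := by exact_mod_cast hj'.1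
  have j2 : (j : ℝ) ≤ n := by exact_mod_cast hj'.2
  have hxi' := abs_le.1 hxi
  have hyj' := abs_le.1 hyj
  by_cases hdiag : -(3 / 10) ≤ v.re - i - (v.im - j) ∧ v.re - i - (v.im - j) ≤ 3 / 10
  · refine ⟨1, -(n + 1), n + 1, i - j - 3 / 10, i - j + 3 / 10, by clear * - i j hodd n; linarith only [], by clear * - n i j hnR hodd; linarith only [hnR],
      ⟨⟨by linarith only [j1, hyj'], by linarith only [j2, hyj']⟩, by linarith only [hdiag], by linarith only [hdiag]⟩, ?_⟩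
    rintro z ⟨⟨z1, z2⟩, z3, z4⟩
    refine ⟨⟨abs_le.2 ⟨by linarith only [hL, hnR, i1, j2, z1, z3], by clear * - z L n i j hL hnR i2 j1 z2 z4; linarith only [hL, hnR, i2, j1, z2, z4]⟩, abs_le.2 ⟨by linarith only [hL, hnR, z1], by linarith only [hL, hnR, z2]⟩⟩, ?_⟩
    rw [mem_sUnion_Obst]
    rintro ⟨p, q, -, -, ⟨t, ht⟩, h1, h2⟩
    rw [abs_le] at h1 h2
    have : p - q = i - j := int_eq_of_abs (by
      clear * - p q i j z z3 h1 h2 z4
      push_cast
      exact abs_lt.2 ⟨by linarith only [z3, h1, h2], by linarith only [z4, h1, h2]⟩)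
    exact hodd ⟨t - q + j, by omega⟩
  · have hanti : -(3 / 10) ≤ v.re - i + (v.im - j) ∧ v.re - i + (v.im - j) ≤ 3 / 10 := by
      clear * - v i j hdiag hxi' hyj'
      rcases not_and_or.1 hdiag with h | h
      · constructor <;> linarith only [hxi', h, hyj']
      · constructor <;> linarith only [hyj', h, hxi']
    refine ⟨-1, -(n + 1), n + 1, i + j - 3 / 10, i + j + 3 / 10, by linarith only [], by clear * - n i j hnR; linarith only [hnR],
      ⟨⟨by linarith only [j1, hyj'], by linarith only [j2, hyj']⟩, by linarith only [hanti], by clear * - v i j hanti; linarith only [hanti]⟩, ?_⟩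
    rintro z ⟨⟨z1, z2⟩, z3, z4⟩
    refine ⟨⟨abs_le.2 ⟨by clear * - L z n i j hL hnR i1 j1 z2 z3; linarith only [hL, hnR, i1, j1, z2, z3], by clear * - z L n i j hL hnR i2 j2 z1 z4; linarith only [hL, hnR, i2, j2, z1, z4]⟩, abs_le.2 ⟨by clear * - L z n hL hnR z1; linarith, by linarith only [hL, hnR, z2]⟩⟩, ?_⟩
    rw [mem_sUnion_Obst]
    rintro ⟨p, q, -, -, ⟨t, ht⟩, h1, h2⟩
    rw [abs_le] at h1 h2
    have : p + q = i + j := int_eq_of_abs (by
      clear * - p q i j z z3 h1 h2 z4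
      push_cast
      exact abs_lt.2 ⟨by linarith only [z3, h1, h2], by linarith only [z4, h1, h2]⟩)
    exact hodd ⟨t, by omega⟩

theorem volume_Sq_ne_top (r : ℝ) (hr : 0 ≤ r) : volume (Sq 0 0 r) ≠ ⊤ := by
  rw [volume_Sq r hr]
  exact ENNReal.ofReal_ne_top

theorem visibleRegion_ge (n : ℕ) (hn : 2 ≤ n) (L : ℝ) (hL : 4 * n ≤ L) (v : ℂ)
    (hv : v ∈ Sq 0 0 L \ ⋃₀ Obst n) :
    4 * (n : ℝ) / 5 ≤ volume.real (visibleRegion (Sq 0 0 L \ ⋃₀ Obst n) v) := by
  have hL0 : 0 ≤ L := le_trans (by positivity) hL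
  obtain ⟨e, a, b, c, d, hcd, harea, hvP, hP⟩ := exists_Par n hn L hL v hv
  have h1 : Par e a b c d ⊆ visibleRegion (Sq 0 0 L \ ⋃₀ Obst n) v :=
    fun w hw => ((convex_Par e a b c d).segment_subset hvP hw).trans hP
  have h2 : visibleRegion (Sq 0 0 L \ ⋃₀ Obst n) v ⊆ Sq 0 0 L :=
    fun w hw => (hw (right_mem_segment ℝ v w)).1
  have h3 := measureReal_mono h1 (measure_ne_top_of_subset h2 (volume_Sq_ne_top L hL0))
  rw [measureReal_def, volume_Par _ _ _ _ _ hcd,
    ENNReal.toReal_ofReal (le_trans (by positivity) harea)] at h3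
  exact harea.trans h3

theorem real_Sq (r : ℝ) (hr : 0 ≤ r) : volume.real (Sq 0 0 r) = 4 * r ^ 2 := by
  rw [measureReal_def, volume_Sq r hr, ENNReal.toReal_ofReal (by positivity)]

theorem free_le (n : ℕ) (L : ℝ) (hL : 0 ≤ L) :
    volume.real (Sq 0 0 L \ ⋃₀ Obst n) ≤ 4 * L ^ 2 := by
  rw [← real_Sq L hL]
  exact measureReal_mono sdiff_subset (volume_Sq_ne_top L hL)

theorem free_ge (n : ℕ) (hn : 1 ≤ n) (L : ℝ) (hL : 0 ≤ L) :
    4 * L ^ 2 - 9 * n ^ 2 ≤ volume.real (Sq 0 0 L \ ⋃₀ Obst n) := by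
  have hnR : (1 : ℝ) ≤ n := by exact_mod_cast hn
  have hsub : Sq 0 0 L ⊆ (Sq 0 0 L \ ⋃₀ Obst n) ∪ Sq 0 0 (3 / 2 * n) := by
    intro z hz
    by_cases hb : z ∈ ⋃₀ Obst n
    · right
      obtain ⟨i, j, hi, hj, -, hx, hy⟩ := (mem_sUnion_Obst n z).1 hb
      rw [abs_le] at hi hj hx hy
      have i1 : -(n : ℝ) ≤ i := by exact_mod_cast hi.1
      have i2 : (i : ℝ) ≤ n := by exact_mod_cast hi.2
      have j1 : -(n : ℝ) ≤ j := by exact_mod_cast hj.1
      have j2 : (j : ℝ) ≤ n := by exact_mod_cast hj.2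
      exact ⟨abs_le.2 ⟨by linarith only [hnR, hx, i1], by linarith only [hnR, hx, i2]⟩, abs_le.2 ⟨by linarith only [hnR, hy, j1], by linarith only [hnR, hy, j2]⟩⟩
    · exact Or.inl ⟨hz, hb⟩
  have h1 := measureReal_mono hsub (measure_union_ne_top
    (measure_ne_top_of_subset sdiff_subset (volume_Sq_ne_top L hL))
    (volume_Sq_ne_top _ (by positivity)))
  have h2 := measureReal_union_le (μ := volume) (Sq 0 0 L \ ⋃₀ Obst n) (Sq 0 0 (3 / 2 * n))
  rw [real_Sq L hL] at h1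
  rw [real_Sq _ (by positivity)] at h2
  linarith only [h1, h2]

/-- Short intervals around `t, t + 2, t + 4, ...`. -/
def Comb (M : ℕ) (t : ℝ) : Set ℝ :=
  ⋃ k ∈ Finset.range M, Icc (2 * k + t - 1 / 100) (2 * k + t + 1 / 100)

theorem measurableSet_Comb (M : ℕ) (t : ℝ) : MeasurableSet (Comb M t) :=
  Finset.measurableSet_biUnion _ fun _ _ => measurableSet_Icc

theorem volume_Comb (M : ℕ) (t : ℝ) : volume (Comb M t) = ENNReal.ofReal (M / 50) := by
  unfold Comb
  rw [measure_biUnion_finset _ fun _ _ => measurableSet_Icc]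
  · simp only [Real.volume_Icc]
    rw [← ENNReal.ofReal_sum_of_nonneg fun _ _ => by linarith only []]
    congr 1
    have : ∀ k ∈ Finset.range M,
        (2 * (k : ℝ) + t + 1 / 100 - (2 * k + t - 1 / 100)) = 1 / 50 := fun _ _ => by ring
    rw [Finset.sum_congr rfl this]
    simp
    ring
  · intro a _ b _ hab
    refine Set.disjoint_left.2 fun z hz hz' => hab ?_
    have : (a : ℤ) = (b : ℤ) := int_eq_of_abs (by
      clear * - a b z t hz hz'
      push_cast
      exact abs_lt.2 ⟨by linarith only [hz, hz', hz.1, hz.2, hz'.1, hz'.2], by linarith only [hz, hz', hz.1, hz.2, hz'.1, hz'.2]⟩)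
    exact_mod_cast this

/-- The set of points that see little boundary. -/
def Core (M : ℕ) : Set ℂ := {z | z.im ∈ Comb M 1 ∧ z.re - 0 * z.im ∈ Comb M 0}

theorem measurableSet_Core (M : ℕ) : MeasurableSet (Core M) :=
  (Complex.measurable_im (measurableSet_Comb M 1)).inter
    ((by fun_prop : Measurable fun z : ℂ => z.re - 0 * z.im) (measurableSet_Comb M 0))

theorem real_Core (M : ℕ) : volume.real (Core M) = (M : ℝ) ^ 2 / 2500 := by
  unfold Core
  rw [measureReal_def, volume_shear 0 _ _ (measurableSet_Comb M 0) (measurableSet_Comb M 1),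
    volume_Comb, volume_Comb, ← ENNReal.ofReal_mul (by positivity),
    ENNReal.toReal_ofReal (by positivity)]
  ring

theorem adm_of_mem_Core (M : ℕ) (v : ℂ) (hv : v ∈ Core M) : Adm (2 * M) v := by
  obtain ⟨h1, h2⟩ := hv
  simp only [Comb, mem_iUnion, Finset.mem_range, zero_mul, sub_zero, mem_Icc] at h1 h2
  obtain ⟨b, hb, b1, b2⟩ := h1
  obtain ⟨a, ha, a1, a2⟩ := h2
  refine ⟨2 * a, 2 * b + 1, abs_le.2 ⟨by push_cast; omega, by push_cast; omega⟩,
    abs_le.2 ⟨by push_cast; omega, by push_cast; omega⟩, ⟨a + b, by ring⟩, ?_, ?_⟩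
  · push_cast
    exact abs_le.2 ⟨by linarith only [a1], by linarith only [a2]⟩
  · push_cast
    exact abs_le.2 ⟨by linarith only [b1], by linarith only [b2]⟩

theorem mem_free_of_adm (N n : ℕ) (L : ℝ) (hL : N + 1 ≤ L) (v : ℂ) (hv : Adm N v) :
    v ∈ Sq 0 0 L \ ⋃₀ Obst n := by
  obtain ⟨i, j, hi, hj, hodd, hx, hy⟩ := hv
  rw [abs_le] at hi hj hx hy
  have i1 : -(N : ℝ) ≤ i := by exact_mod_cast hi.1
  have i2 : (i : ℝ) ≤ N := by exact_mod_cast hi.2
  have j1 : -(N : ℝ) ≤ j := by exact_mod_cast hj.1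
  have j2 : (j : ℝ) ≤ N := by exact_mod_cast hj.2
  refine ⟨⟨abs_le.2 ⟨by linarith only [hL, hx, i1], by linarith only [hL, hx, i2]⟩, abs_le.2 ⟨by linarith only [hL, hy, j1], by linarith only [hL, hy, j2]⟩⟩, ?_⟩
  rw [mem_sUnion_Obst]
  rintro ⟨p, q, -, -, he, h1, h2⟩
  rw [abs_le] at h1 h2
  have e1 : p = i := int_eq_of_abs (abs_lt.2 ⟨by linarith only [hx, h1], by linarith only [hx, h1]⟩)
  have e2 : q = j := int_eq_of_abs (abs_lt.2 ⟨by linarith only [hy, h2], by linarith only [hy, h2]⟩)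
  rw [e1, e2] at he
  exact (Int.not_even_iff_odd.2 hodd) he

theorem obst_subset (n : ℕ) (L : ℝ) (hL : n + 1 ≤ L) (S : Set ℂ) (hS : S ∈ Obst n) :
    IsSquare S ∧ S ⊆ interior (Sq 0 0 L) := by
  obtain ⟨i, j, hi, hj, -, rfl⟩ := hS
  refine ⟨isSquare_Sq _ _ _ (by norm_num), ?_⟩
  rintro z ⟨hx, hy⟩
  rw [abs_le] at hi hj hx hy
  have i1 : -(n : ℝ) ≤ i := by exact_mod_cast hi.1
  have i2 : (i : ℝ) ≤ n := by exact_mod_cast hi.2
  have j1 : -(n : ℝ) ≤ j := by exact_mod_cast hj.1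
  have j2 : (j : ℝ) ≤ n := by exact_mod_cast hj.2
  exact mem_interior_Sq (abs_lt.2 ⟨by linarith only [hL, hx, i1], by linarith only [hL, hx, i2]⟩) (abs_lt.2 ⟨by linarith only [hL, hy, j1], by linarith only [hL, hy, j2]⟩)

end Pool.Agent.Work.MP_9521de_co
end
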